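import Pool.Agent.helper33.PG.Spec

set_option autoImplicit false

namespace Pool.Agent.PG

theorem SHP_prime (N s p : ℕ) (hN : 0 < N) (hs : 2 ^ s ∣ N) (hp : p.Prime) (hd : p ∣ 2 ^ N + 1) :
    p ≡ 1 [MOD 2 ^ (s + 1)] := by
  have := Fact.mk hp
  obtain ⟨u, hu⟩ := hs
  have hp2 : p ≠ 2 := by
    intro h
    subst h
    have h1 : 2 ∣ 2 ^ N := dvd_pow_self 2 hN.ne'
    have h2 := (Nat.dvd_add_right h1).1 hd
    omega
  have h1 : (2 : ZMod p) ^ N = -1 := by
    have h2 : ((2 ^ N + 1 : ℕ) : ZMod p) = 0 := (ZMod.natCast_eq_zero_iff _ _).2 hd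
    push_cast at h2
    exact eq_neg_of_add_eq_zero_left h2
  have h3 : ((2 : ZMod p) ^ u) ^ (2 ^ s) = -1 := by
    rw [← pow_mul, mul_comm u, ← hu, h1]
  have hne : (-1 : ZMod p) ≠ 1 := by
    have : Fact (2 < p) := ⟨lt_of_le_of_ne hp.two_le (Ne.symm hp2)⟩
    exact ZMod.neg_one_ne_one
  have h4 : orderOf ((2 : ZMod p) ^ u) = 2 ^ (s + 1) := by
    apply orderOf_eq_prime_pow
    · rw [h3]
      exact hne
    · rw [pow_succ, pow_mul, h3]
      norm_num
  have h5 : (2 : ZMod p) ^ u ≠ 0 := by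
    intro h
    rw [h, zero_pow (by positivity)] at h3
    have : (1 : ZMod p) = 0 := by
      rw [← neg_neg (1 : ZMod p), ← h3, neg_zero]
    exact one_ne_zero this
  have h6 := ZMod.orderOf_dvd_card_sub_one h5
  rw [h4] at h6
  exact ((Nat.modEq_iff_dvd' hp.one_le).2 h6).symm

theorem SHP_mod (m D : ℕ) (hD : D ≠ 0) (h : ∀ p : ℕ, p.Prime → p ∣ D → p ≡ 1 [MOD m]) :
    D ≡ 1 [MOD m] := by
  induction D using Nat.recOnMul with
  | zero => exact absurd rfl hD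
  | one => exact Nat.ModEq.refl _
  | prime p hp => exact h p hp dvd_rfl
  | mul a b ha hb =>
    have ha0 : a ≠ 0 := left_ne_zero_of_mul hD
    have hb0 : b ≠ 0 := right_ne_zero_of_mul hD
    have h1 := ha ha0 (fun p hp hpa => h p hp (Dvd.dvd.mul_right hpa b))
    have h2 := hb hb0 (fun p hp hpb => h p hp (Dvd.dvd.mul_left hpb a))
    have h3 := h1.mul h2
    rwa [mul_one] at h3

theorem SHP : SHP_stmt := by
  intro N s D hN hs hD hdvd
  have h1 : D ≡ 1 [MOD 2 ^ (s + 1)] :=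
    SHP_mod _ D (by omega) (fun p hp hpD => SHP_prime N s p hN hs hp (hpD.trans hdvd))
  have h2 : 2 ^ (s + 1) ∣ D - 1 := (Nat.modEq_iff_dvd' hD.le).1 h1.symm
  obtain ⟨n, k, hk, he⟩ := Nat.exists_eq_two_pow_mul_odd (show D - 1 ≠ 0 by omega)
  refine ⟨k, n, hk, ?_, ?_⟩
  · rw [he] at h2
    have h3 : Nat.Coprime (2 ^ (s + 1)) k := by
      apply Nat.Coprime.pow_left
      exact (Nat.coprime_two_left).2 hk
    have h4 := h3.dvd_of_dvd_mul_right h2
    exact (Nat.pow_dvd_pow_iff_le_right (by norm_num)).1 h4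
  · rw [mul_comm, ← he]
    omega

end Pool.Agent.PG
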